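import Pool.Agent.Helper22.GC.VdC
import Pool.Agent.Helper60.LT.A1

/-!
# VD-V1 (MP_fb29e9_nt): the second derivative test for one row of frequencies
-/

open MeasureTheory Real Set Filter Topology

set_option autoImplicit false

namespace Pool.Agent.Helper75.VD

open Pool.Agent.Helper22.AE
open Pool.Agent.Helper92.GC (dt tp Tq uu tt)
open Pool.Agent.Helper92.DT (m12)
open Pool.Agent.Helper60.LT (Cv pf)

theorem ee_same (x : ℝ) : Pool.Agent.Helper22.GC.ee x = ee x := by
  unfold Pool.Agent.Helper22.GC.ee ee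
  congr 1
  push_cast
  ring

/-- second differences of a convex function -/
theorem second_diff {F : ℝ → ℝ} {a b v : ℝ} (h : ConvexOn ℝ (Icc a b) F) (h1 : a ≤ v) (h2 : v + 2 ≤ b) :
    0 ≤ (F (v + 2) - F (v + 1)) - (F (v + 1) - F v) := by
  have h3 := h.slope_mono_adjacent (x := v) (y := v + 1) (z := v + 2) ⟨h1, by linarith⟩ ⟨by linarith, h2⟩ (by linarith) (by linarith)
  rw [show v + 1 - v = 1 by ring, show v + 2 - (v + 1) = 1 by ring, div_one, div_one] at h3
  linarith

/-- the phase of a row -/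
noncomputable def gg (T s : ℝ) (p : ℝ → ℝ) (u : ℝ) : ℝ := T * (u * p (s / u))

theorem gg_deriv {p : ℝ → ℝ} (hp : ContDiff ℝ 4 p) (T s : ℝ) {u : ℝ} (hu : 0 < u) :
    HasDerivAt (gg T s p) (T * (p (s / u) - s / u * deriv p (s / u))) u := by
  have h0 : HasDerivAt (fun u : ℝ => s / u) (-s / u ^ 2) u := by
    have := (hasDerivAt_id u).fun_inv hu.ne'
    have h2 := this.const_mul s
    simp only [id] at h2
    have e : (fun u : ℝ => s / u) = fun u => s * u⁻¹ := by
      funext v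
      rw [div_eq_mul_inv]
    rw [e]
    refine h2.congr_deriv ?_
    ring
  have h1 : HasDerivAt p (deriv p (s / u)) (s / u) := (hp.differentiable (by norm_num)).differentiableAt.hasDerivAt
  have h2 := h1.comp u h0
  have h3 := ((hasDerivAt_id u).fun_mul h2).const_mul T
  unfold gg
  refine h3.congr_deriv ?_
  simp only [id, Function.comp]
  field_simp
  ring

theorem gg_deriv2 {p : ℝ → ℝ} (hp : ContDiff ℝ 4 p) (T s : ℝ) {u : ℝ} (hu : 0 < u) :
    HasDerivAt (fun u => T * (p (s / u) - s / u * deriv p (s / u))) (T * (s ^ 2 / u ^ 3 * deriv (deriv p) (s / u))) u := by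
  have h0 : HasDerivAt (fun u : ℝ => s / u) (-s / u ^ 2) u := by
    have := (hasDerivAt_id u).fun_inv hu.ne'
    have h2 := this.const_mul s
    simp only [id] at h2
    have e : (fun u : ℝ => s / u) = fun u => s * u⁻¹ := by
      funext v
      rw [div_eq_mul_inv]
    rw [e]
    refine h2.congr_deriv ?_
    ring
  have h1 : HasDerivAt p (deriv p (s / u)) (s / u) := (hp.differentiable (by norm_num)).differentiableAt.hasDerivAt
  have hp' : ContDiff ℝ 3 (deriv p) := ((contDiff_succ_iff_deriv (n := 3)).1 (by norm_num; exact hp)).2.2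
  have h1' : HasDerivAt (deriv p) (deriv (deriv p) (s / u)) (s / u) := (hp'.differentiable (by norm_num)).differentiableAt.hasDerivAt
  have h2 := h1.comp u h0
  have h2' := h1'.comp u h0
  have h3 := (h2.fun_sub (h0.fun_mul h2')).const_mul T
  refine h3.congr_deriv ?_
  simp only [Function.comp]
  field_simp
  ring

/-- the convexity of `gg` minus a quadratic function -/
theorem gg_low {c₁ B : ℝ} {p : ℝ → ℝ} (hp : Cv c₁ B p) (hc : 0 < c₁) {T s u₀ U : ℝ} (hT : 0 < T) (hu₀ : 0 < u₀) (hs : |s| ≤ u₀) :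
    ConvexOn ℝ (Icc u₀ U) (fun u => gg T s p u - T * c₁ * s ^ 2 / U ^ 3 * (u ^ 2 / 2)) := by
  refine convexOn_of_hasDerivWithinAt2_nonneg (convex_Icc _ _)
    (f' := fun u => T * (p (s / u) - s / u * deriv p (s / u)) - T * c₁ * s ^ 2 / U ^ 3 * u)
    (f'' := fun u => T * (s ^ 2 / u ^ 3 * deriv (deriv p) (s / u)) - T * c₁ * s ^ 2 / U ^ 3) ?_ ?_ ?_ ?_
  · intro u hu
    have hu0 : 0 < u := hu₀.trans_le hu.1
    have h1 := (gg_deriv hp.sm T s hu0).continuousAt.continuousWithinAt (s := Icc u₀ U)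
    exact h1.sub (by fun_prop)
  · intro u hu
    rw [interior_Icc] at hu
    have hu0 : 0 < u := hu₀.trans hu.1
    have h1 := (gg_deriv hp.sm T s hu0).hasDerivWithinAt (s := interior (Icc u₀ U))
    have h2 : HasDerivAt (fun u : ℝ => T * c₁ * s ^ 2 / U ^ 3 * (u ^ 2 / 2)) (T * c₁ * s ^ 2 / U ^ 3 * u) u := by
      have := ((hasDerivAt_pow 2 u).div_const 2).const_mul (T * c₁ * s ^ 2 / U ^ 3)
      refine this.congr_deriv ?_
      push_cast
      ring
    exact h1.sub (h2.hasDerivWithinAt (s := interior (Icc u₀ U)))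
  · intro u hu
    rw [interior_Icc] at hu
    have hu0 : 0 < u := hu₀.trans hu.1
    have h1 := (gg_deriv2 hp.sm T s hu0).hasDerivWithinAt (s := interior (Icc u₀ U))
    have h2 : HasDerivAt (fun u : ℝ => T * c₁ * s ^ 2 / U ^ 3 * u) (T * c₁ * s ^ 2 / U ^ 3) u := by
      simpa using (hasDerivAt_id u).const_mul (T * c₁ * s ^ 2 / U ^ 3)
    exact h1.sub (h2.hasDerivWithinAt (s := interior (Icc u₀ U)))
  · intro u hu
    rw [interior_Icc] at hu
    have hu0 : 0 < u := hu₀.trans hu.1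
    have hU : 0 < U := hu0.trans hu.2
    have h1 : |s / u| ≤ 1 := by
      rw [abs_div, abs_of_pos hu0, div_le_one hu0]
      exact hs.trans hu.1.le
    have h2 := hp.lo _ h1
    have h3 : T * c₁ * s ^ 2 / U ^ 3 ≤ T * (s ^ 2 / u ^ 3 * c₁) := by
      have h4 : T * (s ^ 2 / u ^ 3 * c₁) = T * c₁ * s ^ 2 / u ^ 3 := by ring
      rw [h4]
      exact div_le_div_of_nonneg_left (by positivity) (by positivity) (pow_le_pow_left₀ hu0.le hu.2.le 3)
    have h5 : T * (s ^ 2 / u ^ 3 * c₁) ≤ T * (s ^ 2 / u ^ 3 * deriv (deriv p) (s / u)) :=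
      mul_le_mul_of_nonneg_left (mul_le_mul_of_nonneg_left h2 (by positivity)) hT.le
    linarith

theorem gg_up {c₁ B : ℝ} {p : ℝ → ℝ} (hp : Cv c₁ B p) {T s u₀ U : ℝ} (hT : 0 < T) (hu₀ : 0 < u₀) (hs : |s| ≤ u₀) :
    ConvexOn ℝ (Icc u₀ U) (fun u => T * B * s ^ 2 / 2 * u⁻¹ - gg T s p u) := by
  refine convexOn_of_hasDerivWithinAt2_nonneg (convex_Icc _ _)
    (f' := fun u => T * B * s ^ 2 / 2 * (-(u ^ 2)⁻¹) - T * (p (s / u) - s / u * deriv p (s / u)))
    (f'' := fun u => T * B * s ^ 2 / 2 * (2 / u ^ 3) - T * (s ^ 2 / u ^ 3 * deriv (deriv p) (s / u))) ?_ ?_ ?_ ?_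
  · intro u hu
    have hu0 : 0 < u := hu₀.trans_le hu.1
    have h1 := (gg_deriv hp.sm T s hu0).continuousAt.continuousWithinAt (s := Icc u₀ U)
    have h2 : ContinuousWithinAt (fun u : ℝ => T * B * s ^ 2 / 2 * u⁻¹) (Icc u₀ U) u :=
      ((continuousAt_inv₀ hu0.ne').const_mul _).continuousWithinAt
    exact h2.sub h1
  · intro u hu
    rw [interior_Icc] at hu
    have hu0 : 0 < u := hu₀.trans hu.1
    have h1 := (gg_deriv hp.sm T s hu0).hasDerivWithinAt (s := interior (Icc u₀ U))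
    have h2 : HasDerivAt (fun u : ℝ => T * B * s ^ 2 / 2 * u⁻¹) (T * B * s ^ 2 / 2 * (-(u ^ 2)⁻¹)) u :=
      (hasDerivAt_inv hu0.ne').const_mul _
    exact (h2.hasDerivWithinAt (s := interior (Icc u₀ U))).sub h1
  · intro u hu
    rw [interior_Icc] at hu
    have hu0 : 0 < u := hu₀.trans hu.1
    have h1 := (gg_deriv2 hp.sm T s hu0).hasDerivWithinAt (s := interior (Icc u₀ U))
    have h2 : HasDerivAt (fun u : ℝ => T * B * s ^ 2 / 2 * (-(u ^ 2)⁻¹)) (T * B * s ^ 2 / 2 * (2 / u ^ 3)) u := by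
      have := (((hasDerivAt_pow 2 u).fun_inv (by positivity)).neg).const_mul (T * B * s ^ 2 / 2)
      refine this.congr_deriv ?_
      push_cast
      field_simp
    exact (h2.hasDerivWithinAt (s := interior (Icc u₀ U))).sub h1
  · intro u hu
    rw [interior_Icc] at hu
    have hu0 : 0 < u := hu₀.trans hu.1
    have h1 : |s / u| ≤ 1 := by
      rw [abs_div, abs_of_pos hu0, div_le_one hu0]
      exact hs.trans hu.1.le
    have h2 := (le_abs_self _).trans (hp.d2 _ h1)
    have h5 : T * (s ^ 2 / u ^ 3 * deriv (deriv p) (s / u)) ≤ T * (s ^ 2 / u ^ 3 * B) :=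
      mul_le_mul_of_nonneg_left (mul_le_mul_of_nonneg_left h2 (by positivity)) hT.le
    have h6 : T * (s ^ 2 / u ^ 3 * B) = T * B * s ^ 2 / 2 * (2 / u ^ 3) := by ring
    linarith

/-- one row: the second derivative test -/
theorem row {c₁ B : ℝ} (hc : 0 < c₁) (hc1 : c₁ ≤ 1) (hB : 1 ≤ B) {p : ℝ → ℝ} (hp : Cv c₁ B p) {T s u₀ U : ℝ} (hT : 0 < T) (hs0 : s ≠ 0) (hu₀ : 0 < u₀)
    (hs : |s| ≤ u₀) (N : ℕ) (hN : u₀ + N ≤ U) (c : ℝ) :
    ‖∑ n ∈ Finset.range N, ee (gg T s p (u₀ + n) + c * n)‖ ≤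
      10 * B / √c₁ * (√T * |s| * (U * √U) / u₀ ^ 2 + U * √U / (√T * |s|)) := by
  have hU : 0 < U := by
    have : (0 : ℝ) ≤ N := by positivity
    linarith
  have hsT : 0 < √T := Real.sqrt_pos.2 hT
  have hsU : 0 < √U := Real.sqrt_pos.2 hU
  have hsc : 0 < √c₁ := Real.sqrt_pos.2 hc
  have hs' : 0 < |s| := abs_pos.2 hs0
  have hsc1 : √c₁ ≤ 1 := Real.sqrt_le_one.2 hc1
  have hTT : √T ^ 2 = T := Real.sq_sqrt hT.le
  have hUU : √U ^ 2 = U := Real.sq_sqrt hU.le
  have hcc : √c₁ ^ 2 = c₁ := Real.sq_sqrt hc.le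
  obtain ⟨l, hl⟩ : ∃ l, l = T * c₁ * s ^ 2 / U ^ 3 := ⟨_, rfl⟩
  have hl0 : 0 < l := by
    rw [hl]
    positivity
  have hsl : √l = √T * √c₁ * |s| / (U * √U) := by
    rw [hl, show T * c₁ * s ^ 2 / U ^ 3 = (√T * √c₁ * |s| / (U * √U)) ^ 2 by
      rw [div_pow, mul_pow, mul_pow, mul_pow, hTT, hUU, hcc, sq_abs]
      ring, Real.sqrt_sq (by positivity)]
  rcases le_or_gt l (1 / 4) with h14 | h14
  · obtain ⟨V, hV⟩ : ∃ V, V = T * B * s ^ 2 / 2 * (1 / u₀ ^ 2) := ⟨_, rfl⟩
    have hV0 : 0 ≤ V := by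
      rw [hV]
      positivity
    have hlow := gg_low (U := U) hp hc hT hu₀ hs
    have hup := gg_up (U := U) hp hT hu₀ hs
    have hnU : ∀ n : ℕ, n ≤ N → u₀ + n ≤ U := by
      intro n hn
      have : (n : ℝ) ≤ N := by exact_mod_cast hn
      linarith
    have key := Pool.Agent.Helper22.GC.second_deriv_test (f := fun n : ℕ => gg T s p (u₀ + n) + c * n) (a := 0) (b := N) (l := l) (V := V) hl0 h14 hV0
      (fun n _ hn => by
        have h1 := second_diff hlow (v := u₀ + n) (by linarith [Nat.cast_nonneg (α := ℝ) n])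
          (by have := hnU (n + 2) (by omega); push_cast at this; linarith)
        rw [← hl] at h1
        push_cast
        have e1 : u₀ + ((n : ℝ) + 2) = u₀ + n + 2 := by ring
        have e2 : u₀ + ((n : ℝ) + 1) = u₀ + n + 1 := by ring
        rw [e1, e2]
        nlinarith)
      (fun p' q _ hpq hq => by
        -- the differences of the second convex function are increasing
        have hstep : ∀ j : ℕ, p' + j < N → (T * B * s ^ 2 / 2 * (u₀ + p' + 1)⁻¹ - gg T s p (u₀ + p' + 1)) - (T * B * s ^ 2 / 2 * (u₀ + p')⁻¹ - gg T s p (u₀ + p')) ≤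
            (T * B * s ^ 2 / 2 * (u₀ + p' + j + 1)⁻¹ - gg T s p (u₀ + p' + j + 1)) - (T * B * s ^ 2 / 2 * (u₀ + p' + j)⁻¹ - gg T s p (u₀ + p' + j)) := by
          intro j
          induction j with
          | zero =>
            intro _
            simp
          | succ j ih =>
            intro hj
            have h1 := ih (by omega)
            have h2 := second_diff hup (v := u₀ + p' + j) (by linarith [Nat.cast_nonneg (α := ℝ) p', Nat.cast_nonneg (α := ℝ) j])
              (by have := hnU (p' + j + 2) (by omega); push_cast at this; linarith)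
            push_cast
            have e1 : u₀ + (p' : ℝ) + ((j : ℝ) + 1) = u₀ + p' + j + 1 := by ring
            have e2 : u₀ + (p' : ℝ) + j + 1 + 1 = u₀ + p' + j + 2 := by ring
            rw [e1, e2]
            linarith
        have h1 := hstep (q - p') (by omega)
        have e3 : ((q - p' : ℕ) : ℝ) = q - p' := by
          rw [Nat.cast_sub hpq]
        rw [e3] at h1
        have e4 : u₀ + (p' : ℝ) + ((q : ℝ) - p') = u₀ + q := by ring
        rw [e4] at h1
        have hup0 : 0 < u₀ + (p' : ℝ) := by positivity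
        have huq0 : 0 < u₀ + (q : ℝ) := by positivity
        have h2 : (u₀ + (q : ℝ) + 1)⁻¹ - (u₀ + q)⁻¹ ≤ 0 := by
          have := inv_anti₀ huq0 (show u₀ + (q : ℝ) ≤ u₀ + q + 1 by linarith)
          linarith
        have h3 : (u₀ + (p' : ℝ))⁻¹ - (u₀ + p' + 1)⁻¹ ≤ 1 / u₀ ^ 2 := by
          rw [inv_sub_inv hup0.ne' (by positivity)]
          have h4 : u₀ ^ 2 ≤ (u₀ + (p' : ℝ)) * (u₀ + p' + 1) := by
            have h5 : u₀ ≤ u₀ + (p' : ℝ) := by linarith [Nat.cast_nonneg (α := ℝ) p']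
            nlinarith
          have e5 : u₀ + (p' : ℝ) + 1 - (u₀ + p') = 1 := by ring
          rw [e5]
          exact one_div_le_one_div_of_le (by positivity) h4
        have hTB : 0 ≤ T * B * s ^ 2 / 2 := by positivity
        have h6 := mul_le_mul_of_nonneg_left h2 hTB
        have h7 := mul_le_mul_of_nonneg_left h3 hTB
        push_cast
        have e6 : u₀ + ((q : ℝ) + 1) = u₀ + q + 1 := by ring
        have e7 : u₀ + ((p' : ℝ) + 1) = u₀ + p' + 1 := by ring
        rw [e6, e7, hV]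
        linarith)
    rw [Finset.range_eq_Ico]
    have e : ∑ n ∈ Finset.Ico 0 N, ee (gg T s p (u₀ + n) + c * n) = ∑ n ∈ Finset.Ico 0 N, Pool.Agent.Helper22.GC.ee (gg T s p (u₀ + n) + c * n) :=
      Finset.sum_congr rfl fun n _ => (ee_same _).symm
    rw [e]
    refine key.trans ?_
    rw [hsl, hV]
    have e8 : 5 * (T * B * s ^ 2 / 2 * (1 / u₀ ^ 2) + 2) / (√T * √c₁ * |s| / (U * √U)) =
        5 * B / (2 * √c₁) * (√T * |s| * (U * √U) / u₀ ^ 2) + 10 / √c₁ * (U * √U / (√T * |s|)) := by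
      have : s ^ 2 = |s| ^ 2 := (sq_abs s).symm
      rw [this]
      nth_rewrite 1 [← hTT]
      field_simp
      ring
    rw [e8, mul_add]
    have h9 : 5 * B / (2 * √c₁) ≤ 10 * B / √c₁ := by
      rw [div_le_div_iff₀ (by positivity) hsc]
      nlinarith
    have h10 : 10 / √c₁ ≤ 10 * B / √c₁ := by
      rw [div_le_div_iff_of_pos_right hsc]
      linarith
    exact add_le_add (mul_le_mul_of_nonneg_right h9 (by positivity)) (mul_le_mul_of_nonneg_right h10 (by positivity))
  · -- trivial bound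
    have h1 : ‖∑ n ∈ Finset.range N, ee (gg T s p (u₀ + n) + c * n)‖ ≤ N := by
      refine (norm_sum_le _ _).trans ?_
      simp only [ee_norm, Finset.sum_const, Finset.card_range, nsmul_eq_mul, mul_one, le_refl]
    refine h1.trans ?_
    have h2 : (N : ℝ) ≤ U := by linarith
    have h3 : 1 / 2 ≤ √l := by
      rw [show (1 / 2 : ℝ) = √(1 / 4) by
        rw [show (1 / 4 : ℝ) = (1 / 2) ^ 2 by norm_num, Real.sqrt_sq (by norm_num)]]
      exact Real.sqrt_le_sqrt h14.le
    have h4 : U ≤ 2 * U * √l := by nlinarith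
    rw [hsl] at h4
    have hu₀U : u₀ ≤ U := by
      have : (0 : ℝ) ≤ N := by positivity
      linarith
    have h5 : 2 * U * (√T * √c₁ * |s| / (U * √U)) ≤ 2 * (√T * |s| * (U * √U) / u₀ ^ 2) := by
      have e1 : 2 * U * (√T * √c₁ * |s| / (U * √U)) = 2 * (√T * |s| * (√c₁ * (U * √U)) / U ^ 2) := by
        field_simp
        rw [hUU]
      rw [e1]
      refine mul_le_mul_of_nonneg_left ?_ (by norm_num)
      have h6 : √c₁ * (U * √U) ≤ U * √U := mul_le_of_le_one_left (by positivity) hsc1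
      calc √T * |s| * (√c₁ * (U * √U)) / U ^ 2 ≤ √T * |s| * (U * √U) / U ^ 2 :=
            div_le_div_of_nonneg_right (mul_le_mul_of_nonneg_left h6 (by positivity)) (by positivity)
        _ ≤ √T * |s| * (U * √U) / u₀ ^ 2 :=
            div_le_div_of_nonneg_left (by positivity) (by positivity) (pow_le_pow_left₀ hu₀.le hu₀U 2)
    have h7 : 2 ≤ 10 * B / √c₁ := by
      rw [le_div_iff₀ hsc]
      nlinarith
    have h8 : 2 * (√T * |s| * (U * √U) / u₀ ^ 2) ≤ 10 * B / √c₁ * (√T * |s| * (U * √U) / u₀ ^ 2) :=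
      mul_le_mul_of_nonneg_right h7 (by positivity)
    have h9 : 0 ≤ 10 * B / √c₁ * (U * √U / (√T * |s|)) := by positivity
    rw [mul_add]
    linarith

end Pool.Agent.Helper75.VD
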