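import Pool.Agent.Helper60.LT.A5
import Pool.Agent.Helper75.VD.V1

/-!
# VD-V2 (MP_fb29e9_nt): the second derivative test for states and cusps
-/

open MeasureTheory Real Set Filter Topology

set_option autoImplicit false

namespace Pool.Agent.Helper75.VD

open Pool.Agent.Helper22.AE
open Pool.Agent.Helper92.GC (dt tp Tq uu tt)
open Pool.Agent.Helper92.DT (m12)
open Pool.Agent.Helper60.LT (Cv pf st s0 mem_st Fr Hom sl fr RR PP W)

open Classical in
/-- the sum over one row -/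
theorem row_sum {c₁ B : ℝ} (hc : 0 < c₁) (hc1 : c₁ ≤ 1) (hB : 1 ≤ B) {p : ℝ → ℝ} (hp : Cv c₁ B p) {T y x H L ρ : ℝ} (hT : 0 < T) (hy : 0 < y)
    (hL : 1 ≤ L) (hH : 1 ≤ H) (hyρ : y * ρ ≤ 1) {S : Finset (ℤ × ℤ)}
    (hS : ∀ k ∈ S, H / L ≤ uu x k ∧ uu x k ≤ L * H ∧ |(k.2 : ℝ)| ≤ ρ * uu x k) {m : ℤ} (hm : m ≠ 0)
    (hconv : ∀ a b k : ℤ, (a, m) ∈ S → (b, m) ∈ S → a ≤ k → k ≤ b → (k, m) ∈ S) (c : ℝ × ℝ) :
    ‖tp (S.filter (fun k => k.2 = m)) (fun k => ee (T * pf p x y k)) c‖ ≤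
      10 * B / √c₁ * (2 * √2 * (L * √L) * L ^ 2) * (√(T * y ^ 2) * |(m : ℝ)| / √H + H * √H / (√(T * y ^ 2) * |(m : ℝ)|)) := by
  have hH0 : 0 < H := by linarith
  have hL0 : 0 < L := by linarith
  have hm0 : (m : ℝ) ≠ 0 := by exact_mod_cast hm
  have hmp : 0 < |(m : ℝ)| := abs_pos.2 hm0
  have hsc : 0 < √c₁ := Real.sqrt_pos.2 hc
  have hsH : 0 < √H := Real.sqrt_pos.2 hH0
  have hsL : 0 < √L := Real.sqrt_pos.2 hL0
  have hTy : 0 < T * y ^ 2 := by positivity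
  have hsT : 0 < √(T * y ^ 2) := Real.sqrt_pos.2 hTy
  rcases (S.filter (fun k => k.2 = m)).eq_empty_or_nonempty with h0 | hne
  · rw [h0]
    unfold tp
    simp only [Finset.sum_empty, norm_zero]
    positivity
  · -- the row is an interval
    obtain ⟨R, hR⟩ : ∃ R : Finset ℤ, R = (S.filter (fun k => k.2 = m)).image Prod.fst := ⟨_, rfl⟩
    have hRne : R.Nonempty := by
      rw [hR]
      exact hne.image _
    have hRm : ∀ k : ℤ, k ∈ R ↔ (k, m) ∈ S := by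
      intro k
      rw [hR, Finset.mem_image]
      constructor
      · rintro ⟨⟨k1, k2⟩, hk, rfl⟩
        rw [Finset.mem_filter] at hk
        obtain ⟨h1, h2⟩ := hk
        simp only at h2
        rw [← h2]
        exact h1
      · intro hk
        exact ⟨(k, m), Finset.mem_filter.2 ⟨hk, rfl⟩, rfl⟩
    obtain ⟨a, ha⟩ : ∃ a, a = R.min' hRne := ⟨_, rfl⟩
    obtain ⟨b, hb⟩ : ∃ b, b = R.max' hRne := ⟨_, rfl⟩
    have haR : a ∈ R := by
      rw [ha]
      exact R.min'_mem hRne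
    have hbR : b ∈ R := by
      rw [hb]
      exact R.max'_mem hRne
    have haS := (hRm a).1 haR
    have hbS := (hRm b).1 hbR
    have hab : a ≤ b := by
      rw [hb]
      exact R.le_max' _ haR
    obtain ⟨N, hN⟩ : ∃ N : ℕ, N = (b + 1 - a).toNat := ⟨_, rfl⟩
    have hNr : (N : ℤ) = b + 1 - a := by
      rw [hN, Int.toNat_of_nonneg (by omega)]
    obtain ⟨u₀, hu₀⟩ : ∃ u₀ : ℝ, u₀ = (a : ℝ) + x * m := ⟨_, rfl⟩
    have hua : uu x (a, m) = u₀ := by
      unfold uu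
      rw [hu₀]
    have hub : uu x (b, m) = (b : ℝ) + x * m := rfl
    obtain ⟨a1, a2, a3⟩ := hS _ haS
    obtain ⟨b1, b2, b3⟩ := hS _ hbS
    rw [hua] at a1 a2 a3
    rw [hub] at b1 b2 b3
    simp only at a3 b3
    have hu0 : 0 < u₀ := lt_of_lt_of_le (by positivity) a1
    have hNU : u₀ + N ≤ 2 * L * H := by
      have h1 : (N : ℝ) = b + 1 - a := by exact_mod_cast hNr
      rw [h1, hu₀]
      nlinarith
    -- the sum
    have hsum : tp (S.filter (fun k => k.2 = m)) (fun k => ee (T * pf p x y k)) c =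
        ee ((a : ℝ) * c.1 + m * c.2) * ∑ n ∈ Finset.range N, ee (gg T (y * m) p (u₀ + n) + c.1 * n) := by
      rw [Finset.mul_sum]
      unfold tp
      symm
      refine Finset.sum_bij (fun n _ => ((a + n : ℤ), m)) ?_ ?_ ?_ ?_
      · intro n hn
        rw [Finset.mem_range] at hn
        rw [Finset.mem_filter]
        refine ⟨hconv a b (a + n) haS hbS (by omega) ?_, rfl⟩
        have : (n : ℤ) < N := by exact_mod_cast hn
        omega
      · intro n _ n' _ h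
        simp only [Prod.mk.injEq, and_true] at h
        omega
      · rintro ⟨k1, k2⟩ hk
        rw [Finset.mem_filter] at hk
        obtain ⟨h1, h2⟩ := hk
        simp only at h2
        subst h2
        have hkR := (hRm k1).2 h1
        have h3 : a ≤ k1 := by
          rw [ha]
          exact R.min'_le _ hkR
        have h4 : k1 ≤ b := by
          rw [hb]
          exact R.le_max' _ hkR
        refine ⟨(k1 - a).toNat, ?_, ?_⟩
        · rw [Finset.mem_range]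
          omega
        · simp only [Prod.mk.injEq, and_true]
          omega
      · intro n _
        simp only
        have e1 : uu x ((a + n : ℤ), m) = u₀ + n := by
          unfold uu
          rw [hu₀]
          push_cast
          ring
        have e2 : pf p x y ((a + n : ℤ), m) = (u₀ + n) * p (y * m / (u₀ + n)) := by
          unfold pf tt
          rw [e1]
          simp only
          rw [mul_div_assoc]
        rw [e2]
        unfold gg dt
        rw [← ee_add, ← ee_add]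
        congr 1
        push_cast
        ring
    rw [hsum, norm_mul, ee_norm, one_mul]
    have hs0 : y * (m : ℝ) ≠ 0 := mul_ne_zero hy.ne' hm0
    have hs1 : |y * (m : ℝ)| ≤ u₀ := by
      rw [abs_mul, abs_of_pos hy]
      calc y * |(m : ℝ)| ≤ y * (ρ * u₀) := mul_le_mul_of_nonneg_left a3 hy.le
        _ = y * ρ * u₀ := by ring
        _ ≤ 1 * u₀ := mul_le_mul_of_nonneg_right hyρ hu0.le
        _ = u₀ := one_mul _
    have key := row hc hc1 hB hp hT hs0 hu0 hs1 N hNU c.1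
    refine key.trans ?_
    have e3 : √T * |y * (m : ℝ)| = √(T * y ^ 2) * |(m : ℝ)| := by
      rw [abs_mul, abs_of_pos hy, Real.sqrt_mul hT.le, Real.sqrt_sq hy.le]
      ring
    rw [e3]
    have e4 : √(2 * L * H) = √2 * √L * √H := by
      rw [Real.sqrt_mul (by positivity), Real.sqrt_mul (by norm_num)]
    rw [e4]
    have hHH : √H ^ 2 = H := Real.sq_sqrt hH0.le
    have h1 : 1 / u₀ ^ 2 ≤ L ^ 2 / H ^ 2 := by
      have h2 : H ≤ L * u₀ := by
        rw [div_le_iff₀ hL0] at a1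
        linarith
      rw [div_le_div_iff₀ (by positivity) (by positivity), one_mul]
      calc H ^ 2 ≤ (L * u₀) ^ 2 := pow_le_pow_left₀ hH0.le h2 2
        _ = L ^ 2 * u₀ ^ 2 := by ring
    have hL2 : 1 ≤ L ^ 2 := one_le_pow₀ hL
    have t1 : √(T * y ^ 2) * |(m : ℝ)| * (2 * L * H * (√2 * √L * √H)) / u₀ ^ 2 ≤
        2 * √2 * (L * √L) * L ^ 2 * (√(T * y ^ 2) * |(m : ℝ)| / √H) := by
      calc √(T * y ^ 2) * |(m : ℝ)| * (2 * L * H * (√2 * √L * √H)) / u₀ ^ 2 =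
            √(T * y ^ 2) * |(m : ℝ)| * (2 * L * H * (√2 * √L * √H)) * (1 / u₀ ^ 2) := by ring
        _ ≤ √(T * y ^ 2) * |(m : ℝ)| * (2 * L * H * (√2 * √L * √H)) * (L ^ 2 / H ^ 2) :=
            mul_le_mul_of_nonneg_left h1 (by positivity)
        _ = 2 * √2 * (L * √L) * L ^ 2 * (√(T * y ^ 2) * |(m : ℝ)| / √H) := by
            have : H = √H ^ 2 := hHH.symm
            field_simp
            rw [hHH]
    have t2 : 2 * L * H * (√2 * √L * √H) / (√(T * y ^ 2) * |(m : ℝ)|) ≤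
        2 * √2 * (L * √L) * L ^ 2 * (H * √H / (√(T * y ^ 2) * |(m : ℝ)|)) := by
      calc 2 * L * H * (√2 * √L * √H) / (√(T * y ^ 2) * |(m : ℝ)|) =
            2 * √2 * (L * √L) * 1 * (H * √H / (√(T * y ^ 2) * |(m : ℝ)|)) := by ring
        _ ≤ 2 * √2 * (L * √L) * L ^ 2 * (H * √H / (√(T * y ^ 2) * |(m : ℝ)|)) := by
            refine mul_le_mul_of_nonneg_right (mul_le_mul_of_nonneg_left hL2 (by positivity)) (by positivity)
    calc 10 * B / √c₁ * (√(T * y ^ 2) * |(m : ℝ)| * (2 * L * H * (√2 * √L * √H)) / u₀ ^ 2 + 2 * L * H * (√2 * √L * √H) / (√(T * y ^ 2) * |(m : ℝ)|)) ≤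
          10 * B / √c₁ * (2 * √2 * (L * √L) * L ^ 2 * (√(T * y ^ 2) * |(m : ℝ)| / √H) +
            2 * √2 * (L * √L) * L ^ 2 * (H * √H / (√(T * y ^ 2) * |(m : ℝ)|))) :=
          mul_le_mul_of_nonneg_left (add_le_add t1 t2) (by positivity)
      _ = _ := by ring

theorem sum_two {f : ℕ → ℝ} (hf : ∀ n, 0 ≤ f n) {I : Finset ℤ} {M : ℕ} (hI : ∀ m ∈ I, m ≠ 0 ∧ m.natAbs ≤ M) :
    ∑ m ∈ I, f m.natAbs ≤ 2 * ∑ j ∈ Finset.Icc 1 M, f j := by
  classical
  have h1 : ∀ J : Finset ℤ, J ⊆ I → Set.InjOn Int.natAbs (J : Set ℤ) → ∑ m ∈ J, f m.natAbs ≤ ∑ j ∈ Finset.Icc 1 M, f j := by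
    intro J hJ hinj
    rw [← Finset.sum_image (f := f) hinj]
    refine Finset.sum_le_sum_of_subset_of_nonneg ?_ fun j _ _ => hf j
    intro j hj
    rw [Finset.mem_image] at hj
    obtain ⟨m, hm, rfl⟩ := hj
    have h2 := hI m (hJ hm)
    rw [Finset.mem_Icc]
    exact ⟨Nat.one_le_iff_ne_zero.2 (Int.natAbs_ne_zero.2 h2.1), h2.2⟩
  rw [← Finset.sum_filter_add_sum_filter_not I (fun m => 0 < m)]
  have h2 := h1 (I.filter (fun m => 0 < m)) (Finset.filter_subset _ _) (by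
    intro a ha b hb hab
    simp only [Finset.coe_filter, Set.mem_ofPred_eq] at ha hb
    omega)
  have h3 := h1 (I.filter (fun m => ¬ 0 < m)) (Finset.filter_subset _ _) (by
    intro a ha b hb hab
    simp only [Finset.coe_filter, Set.mem_ofPred_eq] at ha hb
    omega)
  linarith

theorem sum_id_le (M : ℕ) : ∑ j ∈ Finset.Icc 1 M, (j : ℝ) ≤ (M : ℝ) ^ 2 := by
  induction M with
  | zero => simp
  | succ n ih =>
    rw [Finset.sum_Icc_succ_top (by omega)]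
    push_cast
    nlinarith [Nat.cast_nonneg (α := ℝ) n]

theorem sum_inv_le {M : ℕ} (hM : 1 ≤ M) : ∑ j ∈ Finset.Icc 1 M, (1 : ℝ) / j ≤ 1 + Real.log M := by
  have h := harmonic_le_one_add_log M
  rw [harmonic_eq_sum_Icc] at h
  push_cast at h
  simpa [one_div] using h

open Classical in
/-- the supremum of a sum over rows -/
theorem sup_rows {c₁ B : ℝ} (hc : 0 < c₁) (hc1 : c₁ ≤ 1) (hB : 1 ≤ B) {p : ℝ → ℝ} (hp : Cv c₁ B p) {T y x H L ρ : ℝ} (hT : 0 < T) (hy : 0 < y)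
    (hL : 1 ≤ L) (hH : 1 ≤ H) (hρ : 0 < ρ) (hyρ : y * ρ ≤ 1) {S : Finset (ℤ × ℤ)}
    (hS : ∀ k ∈ S, H / L ≤ uu x k ∧ uu x k ≤ L * H ∧ |(k.2 : ℝ)| ≤ ρ * uu x k ∧ k.2 ≠ 0)
    (hconv : ∀ a b k m : ℤ, (a, m) ∈ S → (b, m) ∈ S → a ≤ k → k ≤ b → (k, m) ∈ S) (c : ℝ × ℝ) :
    ‖tp S (fun k => ee (T * pf p x y k)) c‖ ≤
      20 * B / √c₁ * (2 * √2 * (L * √L) * L ^ 4) * (H * √H * (√(T * y ^ 2) * ρ ^ 2 + (1 + log (1 + ρ * L * H)) / √(T * y ^ 2))) := by
  have hH0 : 0 < H := by linarith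
  have hL0 : 0 < L := by linarith
  have hsc : 0 < √c₁ := Real.sqrt_pos.2 hc
  have hsH : 0 < √H := Real.sqrt_pos.2 hH0
  have hsL : 0 < √L := Real.sqrt_pos.2 hL0
  have hTy : 0 < T * y ^ 2 := by positivity
  have hsT : 0 < √(T * y ^ 2) := Real.sqrt_pos.2 hTy
  have hρH : 0 < ρ * L * H := by positivity
  have hlog : 0 ≤ log (1 + ρ * L * H) := Real.log_nonneg (by linarith)
  obtain ⟨C₁, hC₁⟩ : ∃ C₁, C₁ = 10 * B / √c₁ * (2 * √2 * (L * √L) * L ^ 2) := ⟨_, rfl⟩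
  have hC₁0 : 0 ≤ C₁ := by
    rw [hC₁]
    positivity
  obtain ⟨I, hI⟩ : ∃ I : Finset ℤ, I = S.image Prod.snd := ⟨_, rfl⟩
  obtain ⟨M, hM⟩ : ∃ M : ℕ, M = ⌊ρ * L * H⌋₊ := ⟨_, rfl⟩
  have hIm : ∀ m ∈ I, m ≠ 0 ∧ m.natAbs ≤ M := by
    intro m hm
    rw [hI, Finset.mem_image] at hm
    obtain ⟨k, hk, rfl⟩ := hm
    obtain ⟨h1, h2, h3, h4⟩ := hS k hk
    refine ⟨h4, ?_⟩
    rw [hM]
    refine Nat.le_floor ?_
    rw [Nat.cast_natAbs, Int.cast_abs]
    calc |(k.2 : ℝ)| ≤ ρ * uu x k := h3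
      _ ≤ ρ * (L * H) := mul_le_mul_of_nonneg_left h2 hρ.le
      _ = ρ * L * H := by ring
  -- the sum over the rows
  have h1 : tp S (fun k => ee (T * pf p x y k)) c = ∑ m ∈ I, tp (S.filter (fun k => k.2 = m)) (fun k => ee (T * pf p x y k)) c := by
    unfold tp
    rw [Finset.sum_fiberwise_of_maps_to]
    intro k hk
    rw [hI]
    exact Finset.mem_image_of_mem _ hk
  have h2 : ‖tp S (fun k => ee (T * pf p x y k)) c‖ ≤
      ∑ m ∈ I, C₁ * (√(T * y ^ 2) * ((m.natAbs : ℕ) : ℝ) / √H + H * √H / (√(T * y ^ 2) * ((m.natAbs : ℕ) : ℝ))) := by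
    rw [h1]
    refine (norm_sum_le _ _).trans (Finset.sum_le_sum fun m hm => ?_)
    have h3 := row_sum hc hc1 hB hp (T := T) (y := y) (x := x) (H := H) (L := L) (ρ := ρ) hT hy hL hH hyρ
      (fun k hk => ⟨(hS k hk).1, (hS k hk).2.1, (hS k hk).2.2.1⟩) (hIm m hm).1 (fun a b k => hconv a b k m) c
    rw [hC₁, Nat.cast_natAbs, Int.cast_abs]
    exact h3
  rcases Nat.eq_zero_or_pos M with hM0 | hM0
  · have h3 : I = ∅ := by
      rw [Finset.eq_empty_iff_forall_notMem]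
      intro m hm
      obtain ⟨h4, h5⟩ := hIm m hm
      rw [hM0] at h5
      omega
    rw [h3, Finset.sum_empty] at h2
    exact h2.trans (by positivity)
  · have hMH : (M : ℝ) ≤ ρ * L * H := by
      rw [hM]
      exact Nat.floor_le hρH.le
    have hM1 : (1 : ℝ) ≤ M := by exact_mod_cast hM0
    have h4 := sum_two (f := fun j : ℕ => C₁ * (√(T * y ^ 2) * (j : ℝ) / √H + H * √H / (√(T * y ^ 2) * (j : ℝ))))
      (fun n => by positivity) hIm
    have h5 : ∑ j ∈ Finset.Icc 1 M, C₁ * (√(T * y ^ 2) * (j : ℝ) / √H + H * √H / (√(T * y ^ 2) * (j : ℝ))) =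
        C₁ * (√(T * y ^ 2) / √H * ∑ j ∈ Finset.Icc 1 M, (j : ℝ) + H * √H / √(T * y ^ 2) * ∑ j ∈ Finset.Icc 1 M, (1 : ℝ) / j) := by
      rw [Finset.mul_sum, Finset.mul_sum, ← Finset.sum_add_distrib, Finset.mul_sum]
      refine Finset.sum_congr rfl fun j hj => ?_
      have hj0 : (0 : ℝ) < j := by
        have := (Finset.mem_Icc.1 hj).1
        exact_mod_cast (by omega : 0 < j)
      field_simp
    have h6 := sum_id_le M
    have h7 := sum_inv_le hM0
    have h8 : log M ≤ log (1 + ρ * L * H) := Real.log_le_log (by linarith) (by linarith)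
    have h9 : (M : ℝ) ^ 2 ≤ (ρ * L * H) ^ 2 := pow_le_pow_left₀ (by positivity) hMH 2
    have hHH : √H ^ 2 = H := Real.sq_sqrt hH0.le
    have hL2 : 1 ≤ L ^ 2 := one_le_pow₀ hL
    have t1 : √(T * y ^ 2) / √H * ∑ j ∈ Finset.Icc 1 M, (j : ℝ) ≤ L ^ 2 * (H * √H * (√(T * y ^ 2) * ρ ^ 2)) := by
      calc √(T * y ^ 2) / √H * ∑ j ∈ Finset.Icc 1 M, (j : ℝ) ≤ √(T * y ^ 2) / √H * (ρ * L * H) ^ 2 :=
            mul_le_mul_of_nonneg_left (h6.trans h9) (by positivity)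
        _ = L ^ 2 * (H * √H * (√(T * y ^ 2) * ρ ^ 2)) := by
            field_simp
            rw [hHH]
    have t2 : H * √H / √(T * y ^ 2) * ∑ j ∈ Finset.Icc 1 M, (1 : ℝ) / j ≤ L ^ 2 * (H * √H * ((1 + log (1 + ρ * L * H)) / √(T * y ^ 2))) := by
      calc H * √H / √(T * y ^ 2) * ∑ j ∈ Finset.Icc 1 M, (1 : ℝ) / j ≤ H * √H / √(T * y ^ 2) * (1 + log (1 + ρ * L * H)) :=
            mul_le_mul_of_nonneg_left (by linarith) (by positivity)
        _ = 1 * (H * √H * ((1 + log (1 + ρ * L * H)) / √(T * y ^ 2))) := by ring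
        _ ≤ L ^ 2 * (H * √H * ((1 + log (1 + ρ * L * H)) / √(T * y ^ 2))) := mul_le_mul_of_nonneg_right hL2 (by positivity)
    refine h2.trans (h4.trans ?_)
    rw [h5]
    calc 2 * (C₁ * (√(T * y ^ 2) / √H * ∑ j ∈ Finset.Icc 1 M, (j : ℝ) + H * √H / √(T * y ^ 2) * ∑ j ∈ Finset.Icc 1 M, (1 : ℝ) / j)) ≤
          2 * (C₁ * (L ^ 2 * (H * √H * (√(T * y ^ 2) * ρ ^ 2)) + L ^ 2 * (H * √H * ((1 + log (1 + ρ * L * H)) / √(T * y ^ 2))))) :=
          mul_le_mul_of_nonneg_left (mul_le_mul_of_nonneg_left (add_le_add t1 t2) hC₁0) (by norm_num)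
      _ = _ := by
          rw [hC₁]
          ring

end Pool.Agent.Helper75.VD
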