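import Pool.Agent.Helper60.LT.C4
import Pool.Agent.Helper60.LT.F3
import Pool.Agent.Helper75.VD.V2

/-!
# VD-V3 (MP_fb29e9_nt): twelfth moments of cusps and states from the second derivative test
-/

open MeasureTheory Real Set Filter Topology

set_option autoImplicit false

namespace Pool.Agent.Helper75.VD

open Pool.Agent.Helper22.AE
open Pool.Agent.Helper92.GC
open Pool.Agent.Helper92.DT (m12)
open Pool.Agent.Helper60.LT (Cv pf st s0 mem_st Fr Hom sl fr RR PP W Tf xf yf RR_fr PP_fr fr_surj)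

private theorem intb92 {E : Type} [NormedAddCommGroup E] {f : ℝ × ℝ → E} (hf : Continuous f) :
    Integrable f (volume.restrict Tq) := by
  have h1 : IsCompact Tq := isCompact_Icc.prod isCompact_Icc
  exact hf.continuousOn.integrableOn_compact h1

private theorem dt_cont92 (k : ℤ × ℤ) : Continuous (dt k) := by
  unfold dt
  fun_prop

theorem pars (T : Finset (ℤ × ℤ)) (b : ℤ × ℤ → ℂ) :
    ∫ c in Tq, ‖tp T b c‖ ^ 2 = ∑ l ∈ T, ‖b l‖ ^ 2 := by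
  have h1 : ∀ c, ((‖tp T b c‖ ^ 2 : ℝ) : ℂ) = ∑ k ∈ T, ∑ l ∈ T, b k * (starRingEnd ℂ) (b l) *
      ee (dt (k - l) c) := by
    intro c
    rw [← Complex.normSq_eq_norm_sq, ← Complex.mul_conj]
    unfold tp
    rw [map_sum, Finset.sum_mul_sum]
    refine Finset.sum_congr rfl fun k _ => Finset.sum_congr rfl fun l _ => ?_
    have h2 : ee (dt (k - l) c) = ee (dt k c) * (starRingEnd ℂ) (ee (dt l c)) := by
      rw [← ee_neg, ← ee_add]
      congr 1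
      unfold dt
      rw [Prod.fst_sub, Prod.snd_sub]
      push_cast
      ring
    rw [h2, map_mul]
    ring
  have h2 : ((∫ c in Tq, ‖tp T b c‖ ^ 2 : ℝ) : ℂ) = ((∑ l ∈ T, ‖b l‖ ^ 2 : ℝ) : ℂ) := by
    rw [← integral_complex_ofReal]
    simp only [h1]
    have hI : ∀ k l : ℤ × ℤ, Integrable (fun c : ℝ × ℝ => b k * (starRingEnd ℂ) (b l) *
        ee (dt (k - l) c)) (volume.restrict Tq) := fun k l =>
      intb92 (continuous_const.mul (ee_cont.comp (dt_cont92 _)))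
    rw [integral_finsetSum _ fun k _ => integrable_finsetSum _ fun l _ => hI k l]
    push_cast
    refine Finset.sum_congr rfl fun k hk => ?_
    rw [integral_finsetSum _ fun l _ => hI k l]
    rw [Finset.sum_eq_single k]
    · rw [integral_const_mul, ee_int, if_pos (sub_self k), mul_one, Complex.mul_conj,
        Complex.normSq_eq_norm_sq]
      push_cast
      rfl
    · intro l _ hl
      rw [integral_const_mul, ee_int, if_neg (fun h => hl (sub_eq_zero.1 h).symm), mul_zero]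
    · intro h
      exact absurd hk h
  exact_mod_cast h2


/-- `‖.‖₁₂¹² ≤ sup¹⁰ ‖.‖₂²` -/
theorem m12_sup {S : Finset (ℤ × ℤ)} {a : ℤ × ℤ → ℂ} (ha : ∀ k ∈ S, ‖a k‖ ≤ 1) {D : ℝ} (hD : ∀ c, ‖tp S a c‖ ≤ D) :
    m12 S a ≤ D ^ 10 * S.card := by
  have h1 : ∫ c in Tq, ‖tp S a c‖ ^ 2 ≤ (S.card : ℝ) := by
    rw [pars]
    refine (Finset.sum_le_card_nsmul _ _ 1 fun k hk => ?_).trans (by simp)
    exact pow_le_one₀ (norm_nonneg _) (ha k hk)
  have hD0 : 0 ≤ D := (norm_nonneg _).trans (hD 0)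
  have hint : Integrable (fun c => ‖tp S a c‖ ^ 2) (volume.restrict Tq) :=
    intb92 ((tp_cont S a).norm.pow 2)
  unfold m12
  have h3 : ∫ c in Tq, ‖tp S a c‖ ^ 12 ≤ ∫ c in Tq, D ^ 10 * ‖tp S a c‖ ^ 2 := by
    refine integral_mono_of_nonneg (Filter.Eventually.of_forall fun q => by positivity)
      (hint.const_mul _) (Filter.Eventually.of_forall fun c => ?_)
    have h4 : ‖tp S a c‖ ^ 12 = ‖tp S a c‖ ^ 10 * ‖tp S a c‖ ^ 2 := by ring
    change ‖tp S a c‖ ^ 12 ≤ _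
    rw [h4]
    exact mul_le_mul_of_nonneg_right (pow_le_pow_left₀ (norm_nonneg _) (hD c) 10) (by positivity)
  rw [integral_const_mul] at h3
  exact h3.trans (mul_le_mul_of_nonneg_left h1 (by positivity))

/-- the bound of the second derivative test: `H ^ (3/2) (√T' ρ² + (1 + log (1 + H)) / √T')`, `T' = T y²` -/
noncomputable def vd (H T' ρ : ℝ) : ℝ := H * √H * (√T' * ρ ^ 2 + (1 + log (1 + H)) / √T')

theorem vd_nonneg {H T' ρ : ℝ} (hH : 0 ≤ H) : 0 ≤ vd H T' ρ := by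
  have : 0 ≤ log (1 + H) := Real.log_nonneg (by linarith)
  unfold vd
  positivity

/-- the supremum of the sum over the frequencies with `k.2 ≠ 0` of a state -/
theorem sup_s0 {c₁ B L : ℝ} (hc : 0 < c₁) (hc1 : c₁ ≤ 1) (hB : 1 ≤ B) (hL : 1 ≤ L) : ∃ C : ℝ, 1 ≤ C ∧
    ∀ (p : ℝ → ℝ) (x y T K ρ : ℝ) (c : ℝ × ℝ), Cv c₁ B p → 0 < T → 0 < y → 1 ≤ K / T → 0 < ρ → ρ ≤ 5 → y * ρ ≤ 1 →
      ‖tp (s0 L ρ K T x) (fun k => ee (T * pf p x y k)) c‖ ≤ C * vd (K / T) (T * y ^ 2) ρ := by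
  classical
  have hL0 : 0 < L := by linarith
  have hsc : 0 < √c₁ := Real.sqrt_pos.2 hc
  obtain ⟨C₁, hC₁⟩ : ∃ C₁, C₁ = 20 * B / √c₁ * (2 * √2 * (L * √L) * L ^ 4) := ⟨_, rfl⟩
  have hC₁0 : 0 ≤ C₁ := by
    rw [hC₁]
    positivity
  have hlL : 0 ≤ log (1 + 5 * L) := Real.log_nonneg (by linarith)
  refine ⟨1 + C₁ * (1 + log (1 + 5 * L)), by nlinarith [mul_nonneg hC₁0 hlL], ?_⟩
  intro p x y T K ρ c hp hT hy hH hρ hρ5 hyρ
  obtain ⟨H, hHd⟩ : ∃ H, H = K / T := ⟨_, rfl⟩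
  rw [← hHd] at hH ⊢
  have hH0 : 0 < H := by linarith
  have hK : 0 < K := by
    have : K = H * T := by
      rw [hHd]
      field_simp
    rw [this]
    positivity
  have hTy : 0 < T * y ^ 2 := by positivity
  have hsT : 0 < √(T * y ^ 2) := Real.sqrt_pos.2 hTy
  have hmem : ∀ k, k ∈ s0 L ρ K T x ↔ (K ≤ L * (T * uu x k) ∧ T * uu x k ≤ L * K ∧ |(k.2 : ℝ)| ≤ ρ * uu x k) ∧ k.2 ≠ 0 := by
    intro k
    unfold s0
    rw [Finset.mem_filter, mem_st hT hL0 hK hρ.le]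
  have key := sup_rows hc hc1 hB hp (T := T) (y := y) (x := x) (H := H) (L := L) (ρ := ρ) hT hy hL hH hρ hyρ
    (S := s0 L ρ K T x) (fun k hk => by
      rw [hmem] at hk
      obtain ⟨⟨h1, h2, h3⟩, h4⟩ := hk
      refine ⟨?_, ?_, h3, h4⟩
      · rw [div_le_iff₀ hL0, hHd, div_le_iff₀ hT]
        linarith
      · rw [hHd, ← mul_div_assoc, le_div_iff₀ hT]
        linarith)
    (fun a b k m ha hb hak hkb => by
      rw [hmem] at ha hb ⊢
      obtain ⟨⟨a1, a2, a3⟩, a4⟩ := ha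
      obtain ⟨⟨b1, b2, b3⟩, b4⟩ := hb
      have h1 : (a : ℝ) ≤ k := by exact_mod_cast hak
      have h2 : (k : ℝ) ≤ b := by exact_mod_cast hkb
      have e1 : uu x (a, m) ≤ uu x (k, m) := by
        unfold uu
        simp only
        linarith
      have e2 : uu x (k, m) ≤ uu x (b, m) := by
        unfold uu
        simp only
        linarith
      refine ⟨⟨?_, ?_, ?_⟩, a4⟩
      · exact a1.trans (mul_le_mul_of_nonneg_left (mul_le_mul_of_nonneg_left e1 hT.le) hL0.le)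
      · exact (mul_le_mul_of_nonneg_left e2 hT.le).trans b2
      · exact a3.trans (mul_le_mul_of_nonneg_left e1 hρ.le)) c
  rw [← hC₁] at key
  refine key.trans ?_
  have hl1 : 0 ≤ log (1 + H) := Real.log_nonneg (by linarith)
  have h1 : log (1 + ρ * L * H) ≤ log (1 + 5 * L) + log (1 + H) := by
    rw [← Real.log_mul (by positivity) (by positivity)]
    refine Real.log_le_log (by positivity) ?_
    have : ρ * L * H ≤ 5 * L * H := by
      refine mul_le_mul_of_nonneg_right (mul_le_mul_of_nonneg_right hρ5 hL0.le) hH0.le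
    nlinarith
  have h2 : 1 + log (1 + ρ * L * H) ≤ (1 + log (1 + 5 * L)) * (1 + log (1 + H)) := by nlinarith
  have h3 : H * √H * (√(T * y ^ 2) * ρ ^ 2 + (1 + log (1 + ρ * L * H)) / √(T * y ^ 2)) ≤
      (1 + log (1 + 5 * L)) * vd H (T * y ^ 2) ρ := by
    unfold vd
    have h4 : √(T * y ^ 2) * ρ ^ 2 ≤ (1 + log (1 + 5 * L)) * (√(T * y ^ 2) * ρ ^ 2) :=
      le_mul_of_one_le_left (by positivity) (by linarith)
    have h5 : (1 + log (1 + ρ * L * H)) / √(T * y ^ 2) ≤ (1 + log (1 + 5 * L)) * ((1 + log (1 + H)) / √(T * y ^ 2)) := by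
      rw [← mul_div_assoc]
      exact div_le_div_of_nonneg_right h2 hsT.le
    calc H * √H * (√(T * y ^ 2) * ρ ^ 2 + (1 + log (1 + ρ * L * H)) / √(T * y ^ 2)) ≤
          H * √H * ((1 + log (1 + 5 * L)) * (√(T * y ^ 2) * ρ ^ 2) + (1 + log (1 + 5 * L)) * ((1 + log (1 + H)) / √(T * y ^ 2))) :=
          mul_le_mul_of_nonneg_left (add_le_add h4 h5) (by positivity)
      _ = _ := by ring
  have hv := vd_nonneg (T' := T * y ^ 2) (ρ := ρ) hH0.le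
  calc C₁ * (H * √H * (√(T * y ^ 2) * ρ ^ 2 + (1 + log (1 + ρ * L * H)) / √(T * y ^ 2))) ≤
        C₁ * ((1 + log (1 + 5 * L)) * vd H (T * y ^ 2) ρ) := mul_le_mul_of_nonneg_left h3 hC₁0
    _ ≤ (1 + C₁ * (1 + log (1 + 5 * L))) * vd H (T * y ^ 2) ρ := by nlinarith

/-- the twelfth moment of the frequencies with `k.2 ≠ 0` of a state -/
theorem W_s0 {c₁ B L : ℝ} (hc : 0 < c₁) (hc1 : c₁ ≤ 1) (hB : 1 ≤ B) (hL : 1 ≤ L) : ∃ C : ℝ, 1 ≤ C ∧
    ∀ (p : ℝ → ℝ) (x y T K ρ : ℝ), Cv c₁ B p → 0 < T → 0 < y → 1 ≤ K / T → 0 < ρ → ρ ≤ 5 → y * ρ ≤ 1 →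
      W p y (s0 L ρ K T x) (fun _ => 1) T x ≤ C * vd (K / T) (T * y ^ 2) ρ ^ 10 * (ρ * (K / T) ^ 2) := by
  classical
  obtain ⟨C₁, hC₁, h1⟩ := sup_s0 (L := L) hc hc1 hB hL
  obtain ⟨C₂, hC₂, h2⟩ := Pool.Agent.Helper60.LT.pairs hL
  have hL0 : 0 < L := by linarith
  refine ⟨C₁ ^ 10 * C₂, ?_, ?_⟩
  · exact one_le_mul_of_one_le_of_one_le (one_le_pow₀ hC₁) hC₂
  intro p x y T K ρ hp hT hy hH hρ hρ5 hyρ
  have hK : 0 < K := by
    have : K = K / T * T := by field_simp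
    rw [this]
    have : 0 < K / T := by linarith
    positivity
  have h3 : W p y (s0 L ρ K T x) (fun _ => 1) T x ≤ (C₁ * vd (K / T) (T * y ^ 2) ρ) ^ 10 * (s0 L ρ K T x).card := by
    unfold W
    refine m12_sup (fun k _ => by rw [one_mul, ee_norm]) fun c => ?_
    simp only [one_mul]
    exact h1 p x y T K ρ c hp hT hy hH hρ hρ5 hyρ
  have h4 : ((s0 L ρ K T x).card : ℝ) ≤ C₂ * ρ * (K / T) ^ 2 := by
    refine (h2 x ρ (K / T) (s0 L ρ K T x) hH hρ hρ5 fun k hk => ?_).1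
    unfold s0 at hk
    rw [Finset.mem_filter, mem_st hT hL0 hK hρ.le] at hk
    obtain ⟨⟨h1, h2, h3⟩, h4⟩ := hk
    refine ⟨h4, ?_, ?_, h3⟩
    · rw [div_le_iff₀ hL0, div_le_iff₀ hT]
      linarith
    · rw [← mul_div_assoc, le_div_iff₀ hT]
      linarith
  have hv := vd_nonneg (H := K / T) (T' := T * y ^ 2) (ρ := ρ) (by linarith)
  calc W p y (s0 L ρ K T x) (fun _ => 1) T x ≤ (C₁ * vd (K / T) (T * y ^ 2) ρ) ^ 10 * (s0 L ρ K T x).card := h3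
    _ ≤ (C₁ * vd (K / T) (T * y ^ 2) ρ) ^ 10 * (C₂ * ρ * (K / T) ^ 2) := mul_le_mul_of_nonneg_left h4 (by positivity)
    _ = _ := by ring

/-- the same for frames -/
theorem RR_vd {c₁ B L : ℝ} (hc : 0 < c₁) (hc1 : c₁ ≤ 1) (hB : 1 ≤ B) (hL : 1 ≤ L) : ∃ C : ℝ, 1 ≤ C ∧
    ∀ (h : ℝ × ℝ → ℝ) (f : Fr) (K ρ : ℝ), Hom c₁ B h → 0 < Tf f → 0 < yf f → 1 ≤ K / Tf f → 0 < ρ → ρ ≤ 5 → yf f * ρ ≤ 1 →
      RR h L ρ K f ≤ ENNReal.ofReal (C * vd (K / Tf f) (Tf f * yf f ^ 2) ρ ^ 10 * (ρ * (K / Tf f) ^ 2)) := by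
  obtain ⟨C, hC, h1⟩ := W_s0 (L := L) hc hc1 hB hL
  refine ⟨C, hC, fun h f K ρ hh hT hy hH hρ hρ5 hyρ => ?_⟩
  obtain ⟨θ, -, hf⟩ := fr_surj hT
  have hK : 0 < K := by
    have : K = K / Tf f * Tf f := by field_simp
    rw [this]
    have : 0 < K / Tf f := by linarith
    positivity
  have h2 := RR_fr hh (θ := θ) (y := yf f) (T := Tf f) (x := xf f) (L := L) (S := ρ) (K := K) hT (by linarith) hK hρ.le
  rw [← hf] at h2
  rw [h2]
  exact ENNReal.ofReal_le_ofReal (h1 (sl h θ) (xf f) (yf f) (Tf f) K ρ (hh.cv θ) hT hy hH hρ hρ5 hyρ)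

/-- states -/
theorem PP_vd {c₁ B L : ℝ} (hc : 0 < c₁) (hc1 : c₁ ≤ 1) (hB : 1 ≤ B) (hL : 1 ≤ L) : ∃ C : ℝ, 1 ≤ C ∧
    ∀ (h : ℝ × ℝ → ℝ) (f : Fr) (K ρ : ℝ), Hom c₁ B h → 0 < Tf f → 0 < yf f → 1 ≤ K / Tf f → 0 < ρ → ρ ≤ 5 → yf f * ρ ≤ 1 →
      PP h L ρ K f ≤ ENNReal.ofReal (C * ((K / Tf f) ^ 11 + vd (K / Tf f) (Tf f * yf f ^ 2) ρ ^ 10 * (ρ * (K / Tf f) ^ 2))) := by
  obtain ⟨C, hC, h1⟩ := RR_vd (L := L) hc hc1 hB hL
  refine ⟨2 ^ 11 * (L ^ 11 + C), ?_, fun h f K ρ hh hT hy hH hρ hρ5 hyρ => ?_⟩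
  · have : 1 ≤ L ^ 11 := one_le_pow₀ hL
    linarith
  have hK : 0 < K := by
    have : K = K / Tf f * Tf f := by field_simp
    rw [this]
    have : 0 < K / Tf f := by linarith
    positivity
  have h2 := Pool.Agent.Helper60.LT.cusp_split (h := h) (S := ρ) hL hK hρ f hT 0
  rw [Finset.range_zero, Finset.sum_empty, add_zero, pow_zero, div_one] at h2
  have h3 := h1 h f K ρ hh hT hy hH hρ hρ5 hyρ
  have hv := vd_nonneg (H := K / Tf f) (T' := Tf f * yf f ^ 2) (ρ := ρ) (by linarith)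
  have hH0 : 0 < K / Tf f := by linarith
  have hL0 : 0 < L := by linarith
  obtain ⟨A, hA⟩ : ∃ A, A = vd (K / Tf f) (Tf f * yf f ^ 2) ρ ^ 10 * (ρ * (K / Tf f) ^ 2) := ⟨_, rfl⟩
  have hA0 : 0 ≤ A := by
    rw [hA]
    positivity
  have e1 : C * vd (K / Tf f) (Tf f * yf f ^ 2) ρ ^ 10 * (ρ * (K / Tf f) ^ 2) = C * A := by
    rw [hA]
    ring
  rw [e1] at h3
  rw [← hA]
  calc PP h L ρ K f ≤ ENNReal.ofReal (((0 : ℕ) + 2 : ℝ) ^ 11) * (ENNReal.ofReal ((L * (K / Tf f)) ^ 11) + RR h L ρ K f) := h2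
    _ ≤ ENNReal.ofReal (((0 : ℕ) + 2 : ℝ) ^ 11) * (ENNReal.ofReal ((L * (K / Tf f)) ^ 11) + ENNReal.ofReal (C * A)) := by
        gcongr
    _ = ENNReal.ofReal (((0 : ℕ) + 2 : ℝ) ^ 11 * ((L * (K / Tf f)) ^ 11 + C * A)) := by
        rw [← ENNReal.ofReal_add (by positivity) (by positivity), ← ENNReal.ofReal_mul (by positivity)]
    _ ≤ ENNReal.ofReal (2 ^ 11 * (L ^ 11 + C) * ((K / Tf f) ^ 11 + A)) := by
        refine ENNReal.ofReal_le_ofReal ?_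
        rw [mul_pow]
        have h5 : 0 ≤ L ^ 11 * A := by positivity
        have h6 : 0 ≤ C * (K / Tf f) ^ 11 := by positivity
        push_cast
        nlinarith

end Pool.Agent.Helper75.VD
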